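import Mathlib
import Pool.Agent.Y902.GN.Ug4
import Pool.Agent.Y902.GN.FinB

/-!
# Rational points on the plane curves a x^m + b y^n = c

Consider all curves `C : a x ^ m + b y ^ n = c` with nonzero rational `a, b, c` (of any size), with a
rational base point `P₀ = (x₀, y₀)`, `x₀ y₀ ≠ 0`. Scaling the coordinates turns `(C, P₀)` into
`α x ^ m + (1 - α) y ^ n = 1` with the base point `(1, 1)`, where `α = a x₀ ^ m / c`; so `(m, n, α)`
is the isomorphism class of `(C, P₀)` for this action.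

For every `ε > 0` there are `g₀` and `δ > 0` such that for all `Y ≥ 1` there are at most `Y ^ ε`
classes `(m, n, α)` with `gcd m n ≥ g₀` and `m, n ≤ Y ^ δ` for which `C` has more than eight rational
points `(x, y)` with `x y ≠ 0` such that the quotients `x / x₀` and `y / y₀` have height at most `Y`.

The genus of the curves tends to infinity with `gcd m n`; the case `m = n` is that of all diagonal
plane curves.

Method: three points with different values of `x ^ m` give a determinant whose six terms are, up to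
sign, `gcd m n`-th powers of monomials. By the determinant method in an ultraproduct, with the
unbounded exponents as coefficients, in each minimal vanishing partial sum the quotients of these
monomials take few values. The possible partitions are determined and in each case the quotients
determine the coordinates up to sign.
-/

set_option autoImplicit false

namespace Pool.Agent.Results.MP_10e784_ag.DiagonalPlaneCurves

open Pool.Agent.Y902.GN

/-- the height of `q` is at most `B` -/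
def HeightLE (B : ℕ) (q : ℚ) : Prop := |q.num| ≤ (B : ℤ) ∧ q.den ≤ B

/-- the rational points with nonzero coordinates of the curve `a x ^ m + b y ^ n = c` -/
def points (m n : ℕ) (a b c : ℚ) : Set (ℚ × ℚ) :=
  {P | P.1 ≠ 0 ∧ P.2 ≠ 0 ∧ a * P.1 ^ m + b * P.2 ^ n = c}

/-- the quotients of the coordinates of `P` by those of `P₀` have height at most `Y` -/
def Near (Y : ℕ) (P₀ P : ℚ × ℚ) : Prop := HeightLE Y (P.1 / P₀.1) ∧ HeightLE Y (P.2 / P₀.2)

/-- the classes `(m, n, α)` with `g₀ ≤ gcd m n`, `1 ≤ m, n ≤ Y ^ δ`, of the curves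
`a x ^ m + b y ^ n = c`, `a, b, c ≠ 0`, with a base point `P₀` and more than eight rational points
with nonzero coordinates near `P₀`, where `α = a x₀ ^ m / c` -/
def exceptional (g₀ : ℕ) (δ : ℝ) (Y : ℕ) : Set (ℕ × ℕ × ℚ) :=
  {t | g₀ ≤ Nat.gcd t.1 t.2.1 ∧ 1 ≤ t.1 ∧ 1 ≤ t.2.1 ∧ (t.1 : ℝ) ≤ (Y : ℝ) ^ δ ∧
    (t.2.1 : ℝ) ≤ (Y : ℝ) ^ δ ∧ ∃ a b c : ℚ, a ≠ 0 ∧ b ≠ 0 ∧ c ≠ 0 ∧
      ∃ P₀ ∈ points t.1 t.2.1 a b c, a * P₀.1 ^ t.1 / c = t.2.2 ∧
        8 < {P | P ∈ points t.1 t.2.1 a b c ∧ Near Y P₀ P}.encard}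

/-- For every `ε > 0` there are `g₀` and `δ > 0` such that for all `Y ≥ 1` there are at most `Y ^ ε`
classes `(m, n, α)` with `gcd m n ≥ g₀` and `1 ≤ m, n ≤ Y ^ δ` of curves `a x ^ m + b y ^ n = c` with
a base point and more than eight rational points with nonzero coordinates near the base point. -/
theorem result (ε : ℝ) (hε : 0 < ε) : ∃ (g₀ : ℕ) (δ : ℝ), 0 < δ ∧ ∀ Y : ℕ, 1 ≤ Y →
    (exceptional g₀ δ Y).Finite ∧ ((exceptional g₀ δ Y).ncard : ℝ) ≤ (Y : ℝ) ^ ε := by
  obtain ⟨R, δ, hδ, H⟩ := ug ε hε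
  refine ⟨R, δ, hδ, fun Y hY => ?_⟩
  refine fin_of_bound _ _ fun T hT => ?_
  refine H Y hY T fun t ht => ?_
  obtain ⟨h1, h2, h3, h4, h5, a, b, c, ha, hb, hc, P₀, ⟨hx0, hy0, hP0⟩, hα, h6⟩ := hT t ht
  have hβ : 1 - t.2.2 = b * P₀.2 ^ t.2.1 / c := by
    rw [← hα]
    field_simp
    linarith
  refine ⟨h1, h2, h3, h4, h5, ?_, ?_,
    (fun P : ℚ × ℚ => (P.1 / P₀.1, P.2 / P₀.2)) '' {P | P ∈ points t.1 t.2.1 a b c ∧ Near Y P₀ P},
    ?_, ?_⟩
  · rw [← hα]
    exact div_ne_zero (mul_ne_zero ha (pow_ne_zero _ hx0)) hc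
  · intro h
    rw [h, sub_self] at hβ
    exact div_ne_zero (mul_ne_zero hb (pow_ne_zero _ hy0)) hc hβ.symm
  · rw [Set.InjOn.encard_image]
    · exact h6
    · intro P _ Q _ hPQ
      obtain ⟨e1, e2⟩ := Prod.mk.inj hPQ
      exact Prod.ext ((div_left_inj' hx0).1 e1) ((div_left_inj' hy0).1 e2)
  · rintro _ ⟨P, ⟨⟨hx, hy, hP⟩, hn1, hn2⟩, rfl⟩
    refine ⟨⟨div_ne_zero hx hx0, hn1⟩, ⟨div_ne_zero hy hy0, hn2⟩, ?_⟩
    show t.2.2 * (P.1 / P₀.1) ^ t.1 + (1 - t.2.2) * (P.2 / P₀.2) ^ t.2.1 = 1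
    rw [hβ, ← hα, div_pow, div_pow]
    have e1 := pow_ne_zero t.1 hx0
    have e2 := pow_ne_zero t.2.1 hy0
    field_simp
    exact hP

end Pool.Agent.Results.MP_10e784_ag.DiagonalPlaneCurves
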