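import Pool.Agent.Y213.BD.Final

/-!
# The number of curves of a family with a point of bounded degree

`E : y² = x³ + a x + b` is an elliptic curve over a number field `K`, for instance `K = ℚ` (any rank,
with or without complex multiplication) and `X` a closed subset of `E ^ r × ℙ ^ n` over `K`, a family
of closed subsets `X_y ⊆ E ^ r` with parameter space `ℙ ^ n`, for instance of curves of any genus.
Suppose that for all `1 ≤ m ≤ M` every complex point `S` of `E ^ r` is a sum of `m` points of `X_y`
for at most `D` of the `y`. Then for every `ε > 0` only `O(B ^ ε)` of the members `X_y` of height at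
most `B` have a point over some extension of `K` of degree at most `M`. All other members satisfy
the uniformity conjecture in the strongest possible form, over all these extensions at once: they
have no points. For `M = 1` the hypothesis says that every complex point of `E ^ r` lies on at most
`D` of the members.
-/

set_option autoImplicit false

namespace Pool.Agent.Results.MP_10e784_ag.FewCurvesWithPoints

open MvPolynomial NumberField

open scoped LinearAlgebra.Projectivization

/-- the curve `y² = x³ + a x + b` -/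
def curve {F : Type} [Field F] (a b : F) : WeierstrassCurve F := ⟨0, 0, 0, a, b⟩

/-- homogeneous coordinates of a point in the projective plane -/
def coords {F : Type} [Field F] {W : WeierstrassCurve F} : W.toAffine.Point → Fin 3 → F
  | .zero => ![0, 1, 0]
  | .some x y _ => ![x, y, 1]

/-- `F` is homogeneous of degree `d i` in the coordinates `(i, 0), (i, 1), (i, 2)` of the `i`-th
point of the plane, and homogeneous of degree `m` in the last `n + 1` variables -/
def MultiHom {O : Type} [CommRing O] {r n : ℕ} (F : MvPolynomial ((Fin r × Fin 3) ⊕ Fin (n + 1)) O)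
    (d : Fin r → ℕ) (m : ℕ) : Prop :=
  ∀ e ∈ F.support, (∀ i, ∑ j, e (Sum.inl (i, j)) = d i) ∧ ∑ i, e (Sum.inr i) = m

/-- the points over the extension `F` of `K` (by `ι`) of the member `X_y` of the family `X` given by
the `G e`: the points `P` of `E ^ r` with `G_e(P; y) = 0` -/
def Member {K F : Type} [Field K] [Field F] (ι : K →+* F) (a b : 𝓞 K) {r n q : ℕ}
    (G : Fin q → MvPolynomial ((Fin r × Fin 3) ⊕ Fin (n + 1)) (𝓞 K)) (y : Fin (n + 1) → F) :
    Set (Fin r → (curve (ι a) (ι b)).toAffine.Point) :=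
  {P | ∀ e, eval₂ (ι.comp (algebraMap (𝓞 K) K)) (Sum.elim (fun ij => coords (P ij.1) ij.2) y)
    (G e) = 0}

open scoped Classical in
/-- `S` is a sum of `m` points of the member `X_y` over `F` -/
def IsSum {K F : Type} [Field K] [Field F] (ι : K →+* F) (a b : 𝓞 K) {r n q : ℕ}
    (G : Fin q → MvPolynomial ((Fin r × Fin 3) ⊕ Fin (n + 1)) (𝓞 K)) (m : ℕ)
    (S : Fin r → (curve (ι a) (ι b)).toAffine.Point) (y : Fin (n + 1) → F) : Prop :=
  ∃ P : Fin m → Fin r → (curve (ι a) (ι b)).toAffine.Point,
    (∀ j, P j ∈ Member ι a b G y) ∧ ∀ i, ∑ j, P j i = S i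

/-- the `K`-rational points `y` of `ℙ ^ n` of height at most `B` for which the member `X_y` has a
point over an extension of `K` of degree at most `M` -/
def WithPoint {K : Type} [Field K] [NumberField K] (a b : 𝓞 K) {r n q : ℕ}
    (G : Fin q → MvPolynomial ((Fin r × Fin 3) ⊕ Fin (n + 1)) (𝓞 K)) (M : ℕ) (B : ℝ) :
    Set (ℙ K (Fin (n + 1) → K)) :=
  {y | (∃ (F : Type) (_ : Field F) (_ : Algebra K F), FiniteDimensional K F ∧
    Module.finrank K F ≤ M ∧
    (Member (algebraMap K F) a b G fun i => algebraMap K F (y.rep i)).Nonempty) ∧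
    y.mulHeight ≤ B}

theorem coords_eq {F : Type} [Field F] {a b : F} (P : Pool.Agent.H901R3.MS.Pt a b) :
    coords P = Pool.Agent.H901R3.MS.rep P := by
  rcases P with _ | ⟨x, y, h⟩ <;> rfl

theorem result (K : Type) [Field K] [NumberField K] (a b : 𝓞 K)
    (hE : 4 * a ^ 3 + 27 * b ^ 2 ≠ 0) (r n q : ℕ)
    (G : Fin q → MvPolynomial ((Fin r × Fin 3) ⊕ Fin (n + 1)) (𝓞 K))
    (d : Fin q → Fin r → ℕ) (deg : Fin q → ℕ) (hG : ∀ e, MultiHom (G e) (d e) (deg e))
    (σ : K →+* ℂ) (M D : ℕ)
    (hX : ∀ m, 1 ≤ m → m ≤ M → ∀ S : Fin r → (curve (σ a) (σ b)).toAffine.Point,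
      {y : ℙ ℂ (Fin (n + 1) → ℂ) | IsSum σ a b G m S y.rep}.encard ≤ D)
    (ε : ℝ) (hε : 0 < ε) :
    ∃ C : ℝ, ∀ B : ℝ, 1 ≤ B → (WithPoint a b G M B).Finite ∧
      ((WithPoint a b G M B).ncard : ℝ) ≤ C * B ^ ε := by
  obtain ⟨C, hC⟩ := Pool.Agent.Y213.BD.partB K r (n + 1) q M a b hE G d deg
    (fun e x hx => (hG e x hx).1) (fun e x hx => (hG e x hx).2) D σ (by
      intro m hm S
      refine (Set.encard_le_encard ?_).trans (hX (m + 1) (by omega) (by omega) S)
      intro y hy
      obtain ⟨P, hP1, hP2⟩ := hy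
      refine ⟨P, fun j e => ?_, hP2⟩
      have h1 := hP1 j e
      unfold Pool.Agent.Y213.EC.vl at h1
      rw [← h1]
      congr 1
      funext ij
      rcases ij with ij | i
      · exact congrFun (coords_eq (P j ij.1)) ij.2
      · rfl) ε hε
  refine ⟨C, fun B hB => ?_⟩
  obtain ⟨h1, h2⟩ := hC B hB
  have hsub : WithPoint a b G M B ⊆ {y : ℙ K (Fin (n + 1) → K) |
      (∃ m < M, Pool.Agent.Y213.BD.DegPt a b G m y.rep) ∧ y.mulHeight ≤ B} := by
    rintro y ⟨⟨F, hF1, hF2, hF3, hF4, P, hP⟩, hyB⟩
    have hpos : 0 < Module.finrank K F := Module.finrank_pos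
    refine ⟨⟨Module.finrank K F - 1, by omega, F, hF1, hF2, by omega,
      fun i => Pool.Agent.H901R3.MS.rep (P i), fun i => Pool.Agent.Y213.EC.onK_rep _,
      fun e => ?_⟩, hyB⟩
    have h4 := hP e
    unfold Pool.Agent.Y213.EC.vl
    rw [← h4]
    congr 1
    funext ij
    rcases ij with ij | i
    · exact (congrFun (coords_eq (P ij.1)) ij.2).symm
    · rfl
  refine ⟨h1.subset hsub, le_trans ?_ h2⟩
  exact_mod_cast Set.ncard_le_ncard hsub h1

end Pool.Agent.Results.MP_10e784_ag.FewCurvesWithPoints
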