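import Mathlib
import Pool.Agent.Y902.GN.Hr3

/-!
# Rational points of superelliptic curves whose coordinates are generated by few integers

We consider all the superelliptic curves `y ^ n = f x` over `ℚ`, where `2 ≤ n ≤ X ^ δ` and `f` is
an integral polynomial of degree between `3` and `D` without multiple roots, whose coefficients
are at most `X ^ E`, simultaneously; their genus is unbounded.  We consider their rational points
`(x, y)` such that `x` and `y` are, up to sign, products of powers of the same `N` (unspecified)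
integers of size at most `X`, with exponents of size at most `X ^ δ`.  Up to isomorphism over `ℚ`
of the pairs (curve, point), at most `X ^ ε` of these points have `height x > X ^ K`.
-/

set_option autoImplicit false

namespace Pool.Agent.Results.MP_10e784_ag.SuperellipticFewGenerators

open Pool.Agent.Y902.GN

/-- The height of a rational number. -/
def height (q : ℚ) : ℕ := max q.num.natAbs q.den

/-- `x` and `y` are, up to sign, products of powers of the same `N` integers between `1` and `X`,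
with (positive or negative) exponents of size at most `X ^ δ`. -/
def Generated (N X : ℕ) (δ : ℝ) (x y : ℚ) : Prop :=
  ∃ (η θ : ℤ) (b : Fin N → ℕ) (e f : Fin N → ℤ), |η| = 1 ∧ |θ| = 1 ∧
    (∀ j, 1 ≤ b j ∧ b j ≤ X) ∧
    (∀ j, ((e j).natAbs : ℝ) ≤ (X : ℝ) ^ δ ∧ ((f j).natAbs : ℝ) ≤ (X : ℝ) ^ δ) ∧
    x = η * ∏ j, (b j : ℚ) ^ e j ∧ y = θ * ∏ j, (b j : ℚ) ^ f j

/-- The conditions on the curve `y ^ n = f x` and on its rational point `(x, y)`. -/
structure LargePoint (D N E K : ℕ) (δ : ℝ) (X n : ℕ) (f : Polynomial ℤ) (x y : ℚ) : Prop where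
  exponent : 2 ≤ n ∧ (n : ℝ) ≤ (X : ℝ) ^ δ
  deg : 3 ≤ f.natDegree ∧ f.natDegree ≤ D
  sqf : Squarefree (f.map (Int.castRingHom ℚ))
  coeff_le : ∀ i, |f.coeff i| ≤ (X : ℤ) ^ E
  eqn : y ^ n = Polynomial.aeval x f
  gen : Generated N X δ x y
  large : X ^ K < height x

/-- The isomorphism `(z, u) ↦ (r * z, t * u)` maps the curve `u ^ n = f' z` and its point
`(x', y')` to the curve `y ^ n = f x` and its point `(x, y)`. -/
def Scales (r t : ℚ) (n : ℕ) (f : Polynomial ℤ) (x y : ℚ) (f' : Polynomial ℤ) (x' y' : ℚ) :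
    Prop :=
  x = r * x' ∧ y = t * y' ∧ ∀ i, (f.coeff i : ℚ) * r ^ i = t ^ n * f'.coeff i

theorem Generated.ne {N X : ℕ} {δ : ℝ} {x y : ℚ} (h : Generated N X δ x y) : x ≠ 0 ∧ y ≠ 0 := by
  obtain ⟨η, θ, b, e, f, hη, hθ, hb, _, hx, hw⟩ := h
  have hb0 : ∀ j, (b j : ℚ) ≠ 0 := fun j => by
    have := (hb j).1
    exact_mod_cast (by omega : b j ≠ 0)
  constructor
  · rw [hx]
    refine mul_ne_zero ?_ (Finset.prod_ne_zero_iff.2 fun j _ => zpow_ne_zero _ (hb0 j))
    intro h0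
    have : η = 0 := by exact_mod_cast h0
    rw [this, abs_zero] at hη
    exact zero_ne_one hη
  · rw [hw]
    refine mul_ne_zero ?_ (Finset.prod_ne_zero_iff.2 fun j _ => zpow_ne_zero _ (hb0 j))
    intro h0
    have : θ = 0 := by exact_mod_cast h0
    rw [this, abs_zero] at hθ
    exact zero_ne_one hθ

/-- a polynomial without multiple roots is not a monomial -/
theorem two_coeffs {D : ℕ} {f : Polynomial ℤ} (h1 : 3 ≤ f.natDegree) (h2 : f.natDegree ≤ D)
    (h3 : Squarefree (f.map (Int.castRingHom ℚ))) :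
    ∃ i j : Fin (D + 1), (i : ℕ) < j ∧ f.coeff i ≠ 0 ∧ f.coeff j ≠ 0 := by
  have hf0 : f ≠ 0 := by
    rintro rfl
    simp at h1
  have hlead : f.coeff f.natDegree ≠ 0 := by
    rw [Polynomial.coeff_natDegree]
    exact Polynomial.leadingCoeff_ne_zero.2 hf0
  by_contra hcon
  push Not at hcon
  have hz : ∀ i < f.natDegree, f.coeff i = 0 := by
    intro i hi
    by_contra hne
    exact hlead (hcon ⟨i, by omega⟩ ⟨f.natDegree, by omega⟩ hi hne)
  have hX : Polynomial.X * Polynomial.X ∣ f.map (Int.castRingHom ℚ) := by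
    rw [← pow_two, Polynomial.X_pow_dvd_iff]
    intro i hi
    rw [Polynomial.coeff_map, hz i (by omega), map_zero]
  exact Polynomial.not_isUnit_X (h3 _ hX)

/-- the associated point of the general theorem -/
theorem LargePoint.hrPt {D N E K : ℕ} {δ δ0 : ℝ} {X n : ℕ} {f : Polynomial ℤ} {x y : ℚ}
    (h : LargePoint D N E K δ X n f x y) (hδ' : 0 ≤ δ) (hδ : 2 * δ ≤ δ0) (hX : 2 ≤ X) :
    HrPt D N E K δ0 X (fun i => f.coeff i) x (y ^ n) := by
  have hXr : (1 : ℝ) ≤ (X : ℝ) := by exact_mod_cast (by omega : 1 ≤ X)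
  have hX0 : (0 : ℝ) < (X : ℝ) := by linarith
  obtain ⟨η, θ, b, e, g, hη, hθ, hb, heg, hx, hy⟩ := h.gen
  have hle : (X : ℝ) ^ δ ≤ (X : ℝ) ^ δ0 := Real.rpow_le_rpow_of_exponent_le hXr (by linarith)
  refine ⟨fun i => h.coeff_le _, two_coeffs h.deg.1 h.deg.2 h.sqf, ?_, h.large, ?_⟩
  · rw [h.eqn, Polynomial.aeval_eq_sum_range' (Nat.lt_succ_of_le h.deg.2), Finset.sum_range]
    exact Finset.sum_congr rfl fun i _ => zsmul_eq_mul _ _
  · refine ⟨η, θ ^ n, b, e, fun j => g j * n, hη, by rw [abs_pow, hθ, one_pow], hb,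
      fun j => ⟨(heg j).1.trans hle, ?_⟩, hx, ?_⟩
    · rw [Int.natAbs_mul, Int.natAbs_natCast]
      push_cast
      have h1 : ((g j).natAbs : ℝ) * (n : ℝ) ≤ (X : ℝ) ^ δ * (X : ℝ) ^ δ :=
        mul_le_mul (heg j).2 h.exponent.2 (Nat.cast_nonneg _) (by positivity)
      have h2 : (X : ℝ) ^ δ * (X : ℝ) ^ δ ≤ (X : ℝ) ^ δ0 := by
        rw [← Real.rpow_add hX0]
        exact Real.rpow_le_rpow_of_exponent_le hXr (by linarith)
      have h3 := h1.trans h2
      simpa using h3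
    · rw [hy, mul_pow, ← Finset.prod_pow]
      push_cast
      congr 1
      refine Finset.prod_congr rfl fun j _ => ?_
      rw [zpow_mul, zpow_natCast]

/-- the equivalence -/
theorem scales_of_hrEq {D n : ℕ} {f f' : Polynomial ℤ} (hf : f.natDegree ≤ D)
    (hf' : f'.natDegree ≤ D) {x y x' y' : ℚ} (hx : x ≠ 0) (hy : y ≠ 0) (hy' : y' ≠ 0)
    (h : HrEq (d := D) (fun i => f.coeff i) x (y ^ n) (fun i => f'.coeff i) x' (y' ^ n)) :
    ∃ r t : ℚ, r ≠ 0 ∧ t ≠ 0 ∧ Scales r t n f x y f' x' y' := by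
  obtain ⟨ρ, κ, h1, h2, h3⟩ := h
  have hρ : ρ ≠ 0 := by
    rintro rfl
    rw [zero_mul] at h1
    exact hx h1
  have hyn : y' ^ n ≠ 0 := pow_ne_zero _ hy'
  have hκ : κ = (y / y') ^ n := by
    rw [div_pow, h2, mul_div_cancel_right₀ _ hyn]
  refine ⟨ρ, y / y', hρ, div_ne_zero hy hy', h1, by field_simp, fun i => ?_⟩
  by_cases hi : i < D + 1
  · rw [← hκ]
    exact h3 ⟨i, hi⟩
  · rw [Polynomial.coeff_eq_zero_of_natDegree_lt (by omega : f.natDegree < i),
      Polynomial.coeff_eq_zero_of_natDegree_lt (by omega : f'.natDegree < i)]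
    simp

/-- **Few large rational points with generated coordinates.** -/
theorem result : ∀ (D N E : ℕ) (ε : ℝ), 0 < ε → ∃ (K : ℕ) (δ : ℝ), 0 < δ ∧ ∀ X : ℕ, 2 ≤ X →
    ∃ S : Finset (ℕ × Polynomial ℤ × ℚ × ℚ), (S.card : ℝ) ≤ (X : ℝ) ^ ε ∧
      (∀ s ∈ S, LargePoint D N E K δ X s.1 s.2.1 s.2.2.1 s.2.2.2) ∧
      ∀ n f x y, LargePoint D N E K δ X n f x y →
        ∃ s ∈ S, s.1 = n ∧ ∃ r t : ℚ, r ≠ 0 ∧ t ≠ 0 ∧ Scales r t n f x y s.2.1 s.2.2.1 s.2.2.2 := by
  classical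
  intro D N E ε hε
  obtain ⟨K, δ0, hδ0, H⟩ := hr D N E (ε / 2) (by positivity)
  obtain ⟨δ, hδ, hδa, hδb⟩ : ∃ δ : ℝ, 0 < δ ∧ 2 * δ ≤ δ0 ∧ δ ≤ ε / 2 :=
    ⟨min (δ0 / 2) (ε / 2), by positivity, by
      have := min_le_left (δ0 / 2) (ε / 2)
      linarith, min_le_right _ _⟩
  refine ⟨K, δ, hδ, fun X hX => ?_⟩
  have hXr : (1 : ℝ) ≤ (X : ℝ) := by exact_mod_cast (by omega : 1 ≤ X)
  have hX0 : (0 : ℝ) < (X : ℝ) := by linarith
  obtain ⟨T, hT1, hT2, hT3⟩ := max_sep
    {s : ℕ × Polynomial ℤ × ℚ × ℚ | LargePoint D N E K δ X s.1 s.2.1 s.2.2.1 s.2.2.2}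
    (fun s s' => s'.1 = s.1 ∧ ∃ r t : ℚ, r ≠ 0 ∧ t ≠ 0 ∧
      Scales r t s.1 s.2.1 s.2.2.1 s.2.2.2 s'.2.1 s'.2.2.1 s'.2.2.2)
    (fun s => ⟨rfl, 1, 1, one_ne_zero, one_ne_zero, by simp [Scales]⟩)
    (fun s s' => by
      rintro ⟨hn, r, t, hr, ht, h1, h2, h3⟩
      refine ⟨hn.symm, r⁻¹, t⁻¹, inv_ne_zero hr, inv_ne_zero ht, ?_, ?_, fun i => ?_⟩
      · rw [h1]; field_simp
      · rw [h2]; field_simp
      · have h4 := h3 i
        have hri : r ^ i ≠ 0 := pow_ne_zero _ hr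
        have htn : t ^ s.1 ≠ 0 := pow_ne_zero _ ht
        rw [inv_pow, inv_pow, hn]
        field_simp
        linear_combination -h4)
    ((X : ℝ) ^ ε)
    (fun T h1 h2 => by
      have hfib : ∀ n ∈ T.image Prod.fst,
          (T.filter fun s => s.1 = n).card ≤ ⌊(X : ℝ) ^ (ε / 2)⌋₊ := by
        intro n _
        apply Nat.le_floor
        obtain ⟨g, hg⟩ : ∃ g : ℕ × Polynomial ℤ × ℚ × ℚ → (Fin (D + 1) → ℤ) × ℚ × ℚ, g = fun s =>
          ((fun i => s.2.1.coeff i), s.2.2.1, s.2.2.2 ^ n) := ⟨_, rfl⟩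
        have key : ∀ s ∈ T.filter (fun s => s.1 = n), ∀ t ∈ T.filter (fun s => s.1 = n),
            HrEq (g s).1 (g s).2.1 (g s).2.2 (g t).1 (g t).2.1 (g t).2.2 → s = t := by
          intro s hs t ht hst
          obtain ⟨hs, hsn⟩ := Finset.mem_filter.1 hs
          obtain ⟨ht, htn⟩ := Finset.mem_filter.1 ht
          by_contra hne
          refine h2 s hs t ht hne ⟨by rw [htn, hsn], ?_⟩
          rw [hg] at hst
          have a1 := h1 s hs
          have a2 := h1 t ht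
          rw [hsn]
          exact scales_of_hrEq a1.deg.2 a2.deg.2 a1.gen.ne.1 a1.gen.ne.2 a2.gen.ne.2 hst
        have hrefl : ∀ s, HrEq (g s).1 (g s).2.1 (g s).2.2 (g s).1 (g s).2.1 (g s).2.2 := fun s =>
          ⟨1, 1, (one_mul _).symm, (one_mul _).symm, fun i => by rw [one_pow, mul_one, one_mul]⟩
        have hinj : Set.InjOn g (T.filter fun s => s.1 = n : Finset (ℕ × Polynomial ℤ × ℚ × ℚ)) := by
          intro s hs t ht hst
          refine key s (Finset.mem_coe.1 hs) t (Finset.mem_coe.1 ht) ?_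
          rw [hst]
          exact hrefl t
        rw [← Finset.card_image_of_injOn hinj]
        refine H X hX _ ?_ ?_
        · intro t ht
          obtain ⟨s, hs, rfl⟩ := Finset.mem_image.1 ht
          obtain ⟨hs, hsn⟩ := Finset.mem_filter.1 hs
          rw [hg]
          have := (h1 s hs).hrPt hδ.le hδa hX
          rw [hsn] at this
          exact this
        · intro t ht t' ht' hne
          obtain ⟨s, hs, rfl⟩ := Finset.mem_image.1 ht
          obtain ⟨s', hs', rfl⟩ := Finset.mem_image.1 ht'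
          intro hcon
          exact hne (by rw [key s hs s' hs' hcon])
      have hfin := Finset.card_le_mul_card_image (f := Prod.fst) T ⌊(X : ℝ) ^ (ε / 2)⌋₊ hfib
      have himg : ((T.image Prod.fst).card : ℝ) ≤ (X : ℝ) ^ (ε / 2) := by
        have e1 : T.image Prod.fst ⊆ Finset.Ioc 0 ⌊(X : ℝ) ^ δ⌋₊ := by
          intro n hn
          obtain ⟨s, hs, rfl⟩ := Finset.mem_image.1 hn
          have e2 := (h1 s hs).exponent
          rw [Finset.mem_Ioc]
          exact ⟨by omega, Nat.le_floor e2.2⟩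
        have e3 := Finset.card_le_card e1
        rw [Nat.card_Ioc, Nat.sub_zero] at e3
        calc ((T.image Prod.fst).card : ℝ) ≤ (⌊(X : ℝ) ^ δ⌋₊ : ℝ) := by exact_mod_cast e3
          _ ≤ (X : ℝ) ^ δ := Nat.floor_le (by positivity)
          _ ≤ _ := Real.rpow_le_rpow_of_exponent_le hXr hδb
      calc (T.card : ℝ) ≤ ((⌊(X : ℝ) ^ (ε / 2)⌋₊ * (T.image Prod.fst).card : ℕ) : ℝ) := by
            exact_mod_cast hfin
        _ = (⌊(X : ℝ) ^ (ε / 2)⌋₊ : ℝ) * ((T.image Prod.fst).card : ℝ) := by push_cast; rfl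
        _ ≤ (X : ℝ) ^ (ε / 2) * (X : ℝ) ^ (ε / 2) :=
            mul_le_mul (Nat.floor_le (by positivity)) himg (by positivity) (by positivity)
        _ = (X : ℝ) ^ ε := by
            rw [← Real.rpow_add hX0]
            congr 1
            ring)
  exact ⟨T, hT2, hT1, fun n f x y h => by
    obtain ⟨s, hs, h1, h2⟩ := hT3 (n, f, x, y) h
    exact ⟨s, hs, h1, h2⟩⟩

end Pool.Agent.Results.MP_10e784_ag.SuperellipticFewGenerators
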