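import Mathlib
import Pool.Agent.Y488.TM.Ex5

/-!
# The rational points on almost all quadratic twists of hyperelliptic curves with mixed factors

Let `f k ∈ ℤ[x]` be irreducible over `ℚ`, pairwise non-associated, of even total degree, at least
four of them of odd degree, and let `F k` be the homogenisations.  We consider the twists
`C d : d y² = ∏ k, F k (x, w)`, `d` squarefree.  Under a condition on the linear factors (which
excludes the curves of genus 1 and certain coincidences, and which is empty if no `f k` is linear)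
all rational points of `C d` with `y ≠ 0` are of constant type, for all `|d| ≤ X` with at most
`C X (log X)^(-δ)` exceptions.  So almost all twists have no rational points if no factor is linear,
and only the rational Weierstrass points if finitely many rational numbers are of constant type
(which is so for genus at least 2, by Faltings's theorem).  For the curves `d y² = x⁵ - x` of
genus 2 this can be checked by Fermat's theorem on `x⁴ - y⁴ = z²`: almost all of them have exactly
the four rational points `(0, 0)`, `(1, 0)`, `(-1, 0)`, `∞`.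

The case where all factors are linear, and the case where all factors have even degree, are in the
starting library (project TW of helper262); we combine and extend the methods of both.
-/

set_option autoImplicit false

namespace Pool.Agent.Results.MP_10e784_ag.TwistsWithMixedFactors

open Finset Polynomial

/-- the homogenisation `F(x, w) = ∑ i, a i * x ^ i * w ^ (n - i)` of `f = ∑ i, a i * x ^ i`,
`n = deg f` -/
noncomputable def hom (f : ℤ[X]) {R : Type*} [CommRing R] (x w : R) : R :=
  ∑ i ∈ range (f.natDegree + 1), (f.coeff i : R) * x ^ i * w ^ (f.natDegree - i)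

section K

variable {K : Type} [Fintype K] [DecidableEq K]

/-- the indices of the factors of odd degree -/
def Od (f : K → ℤ[X]) : Finset K := univ.filter (fun k => Odd (f k).natDegree)

/-- the indices of the linear factors -/
def Ln (f : K → ℤ[X]) : Finset K := univ.filter (fun k => (f k).natDegree = 1)

/-- the value of `F k` at the zero `(-b, a)` of the linear form `F i = a x + b w` -/
noncomputable def val (f : K → ℤ[X]) (i k : K) : ℤ :=
  hom (f k) (-(f i).coeff 0) ((f i).coeff 1)

/-- the factors are irreducible over `ℚ`, pairwise non-associated, of even total degree, and at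
least four of them have odd degree -/
def Factors (f : K → ℤ[X]) : Prop :=
  (∀ k, Irreducible ((f k).map (Int.castRingHom ℚ))) ∧
  (∀ k l, k ≠ l →
    ¬ Associated ((f k).map (Int.castRingHom ℚ)) ((f l).map (Int.castRingHom ℚ))) ∧
  Even (∑ k, (f k).natDegree) ∧ 4 ≤ (Od f).card

/-- the condition on the linear factors: for any two linear factors `i ≠ k` there is a product
`F T`, `T ⊆ K \ {i, k}`, of even degree, whose values at the zeros of `F i`, `F k` are not in the
same square class; if there are exactly four factors of odd degree, and these are linear, then there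
are two of them, `i` and `k`, and a product `F T` of factors of even degree with this property -/
def General (f : K → ℤ[X]) : Prop :=
  (∀ i ∈ Ln f, ∀ k ∈ Ln f, i ≠ k → ∃ T : Finset K, i ∉ T ∧ k ∉ T ∧ Even (T ∩ Od f).card ∧
    ¬ IsSquare (∏ l ∈ T, (val f i l * val f k l))) ∧
  ((Od f).card = 4 → Od f ⊆ Ln f → ∃ i ∈ Od f, ∃ k ∈ Od f, ∃ T : Finset K,
    Disjoint T (Od f) ∧ ¬ IsSquare (∏ l ∈ T, (val f i l * val f k l)))

/-- `(x : w : y)` is a rational point with `y ≠ 0` of the curve `d y² = ∏ k, F k (x, w)` -/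
def Point (f : K → ℤ[X]) (d : ℤ) (x w y : ℚ) : Prop :=
  y ≠ 0 ∧ (d : ℚ) * y ^ 2 = ∏ k, hom (f k) x w

/-- `(x : w)` is of constant type: for some linear factor `i`, the values at `(x, w)` and at the
zero of `F i` of every product `F T` of even degree, `i ∉ T`, are in the same square class -/
def Const (f : K → ℤ[X]) (x w : ℚ) : Prop :=
  ∃ i, (f i).natDegree = 1 ∧ ∀ T : Finset K, i ∉ T → Even (∑ k ∈ T, (f k).natDegree) →
    IsSquare (∏ k ∈ T, (hom (f k) x w *
      hom (f k) (-((f i).coeff 0 : ℚ)) ((f i).coeff 1 : ℚ)))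

end K

theorem result :
    (∀ (K : Type) [Fintype K] [DecidableEq K] (f : K → ℤ[X]), Factors f → General f →
      (∃ δ : ℝ, 0 < δ ∧ ∃ C : ℝ, ∀ X : ℕ, 3 ≤ X →
        ({d : ℤ | d.natAbs ≤ X ∧ Squarefree d ∧
          ∃ x w y : ℚ, Point f d x w y ∧ ¬ Const f x w}.ncard : ℝ) ≤
            C * X * (Real.log X) ^ (-δ)) ∧
      ({t : ℚ | (∀ k, hom (f k) t 1 ≠ 0) ∧ Const f t 1}.Finite →
        ∃ δ : ℝ, 0 < δ ∧ ∃ C : ℝ, ∀ X : ℕ, 3 ≤ X →
          ({d : ℤ | d.natAbs ≤ X ∧ Squarefree d ∧ ∃ x w y : ℚ, Point f d x w y}.ncard : ℝ) ≤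
            C * X * (Real.log X) ^ (-δ))) ∧
    (∀ (K : Type) [Fintype K] [DecidableEq K] (f : K → ℤ[X]), Factors f →
      (∀ k, (f k).natDegree ≠ 1) →
      ∃ δ : ℝ, 0 < δ ∧ ∃ C : ℝ, ∀ X : ℕ, 3 ≤ X →
        ({d : ℤ | d.natAbs ≤ X ∧ Squarefree d ∧ ∃ x w y : ℚ, (x ≠ 0 ∨ w ≠ 0) ∧
          (d : ℚ) * y ^ 2 = ∏ k, hom (f k) x w}.ncard : ℝ) ≤ C * X * (Real.log X) ^ (-δ)) ∧
    (∃ δ : ℝ, 0 < δ ∧ ∃ C : ℝ, ∀ X : ℕ, 3 ≤ X →
      ({d : ℤ | d.natAbs ≤ X ∧ Squarefree d ∧
        {p : ℚ × ℚ | (d : ℚ) * p.2 ^ 2 = p.1 ^ 5 - p.1} ≠ {(0, 0), (1, 0), (-1, 0)}}.ncard : ℝ) ≤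
        C * X * (Real.log X) ^ (-δ)) := by
  refine ⟨fun K _ _ f hF hG => ?_, fun K _ _ f hF hl => ?_, Pool.Agent.Y488.TM.ex5⟩
  · have hH : Pool.Agent.Y488.TM.Hyp f := ⟨hF.1, hF.2.1, hF.2.2.1, hF.2.2.2, hG.1, hG.2⟩
    exact ⟨Pool.Agent.Y488.TM.main f hH, Pool.Agent.Y488.TM.main2 f hH⟩
  · have hLn : Ln f = ∅ := by
      unfold Ln
      rw [filter_eq_empty_iff]
      exact fun k _ => hl k
    have hH : Pool.Agent.Y488.TM.Hyp f := by
      refine ⟨hF.1, hF.2.1, hF.2.2.1, hF.2.2.2, fun i hi => ?_, fun h4 hs => ?_⟩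
      · exact absurd (show i ∈ Ln f from hi) (by rw [hLn]; exact notMem_empty i)
      · exfalso
        have h1 : Od f ⊆ Ln f := hs
        rw [hLn, subset_empty] at h1
        have h2 : (Od f).card = 4 := h4
        rw [h1, card_empty] at h2
        omega
    obtain ⟨δ, hδ, C, hC⟩ := Pool.Agent.Y488.TM.main f hH
    refine ⟨δ, hδ, C, fun X hX => le_trans ?_ (hC X hX)⟩
    refine Nat.cast_le.2 (Set.ncard_le_ncard ?_ (Pool.Agent.TH213.SP.fin_le X _))
    rintro d ⟨h1, h2, x, w, y, hxw, h3⟩
    have hne : ∀ k, hom (f k) x w ≠ 0 := by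
      intro k
      refine Pool.Agent.W262.TW.hom_eq_zero_rat (hF.1 k) ?_ hxw
      have e1 : ((f k).map (Int.castRingHom ℚ)).natDegree = (f k).natDegree :=
        natDegree_map_eq_of_injective (RingHom.injective_int (Int.castRingHom ℚ)) _
      have e2 : 0 < ((f k).map (Int.castRingHom ℚ)).natDegree := (hF.1 k).natDegree_pos
      have e3 := hl k
      omega
    refine ⟨h1, h2, x, w, y, ⟨?_, h3⟩, ?_⟩
    · rintro rfl
      have h4 : ∏ k, hom (f k) x w = 0 := by rw [← h3]; ring
      exact (prod_ne_zero_iff.2 fun k _ => hne k) h4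
    · rintro ⟨i, hi, -⟩
      exact hl i hi

end Pool.Agent.Results.MP_10e784_ag.TwistsWithMixedFactors
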